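import Pool.Agent.OMF.Stmts

/-!
# TN3 of the squad OMF (problem MP_7e2fab_co)

Three tangents of a conic are not concurrent.
-/

set_option autoImplicit false

namespace Pool.Agent.OMF.H69

open Finset Pool.Agent.GTO Pool.Agent.OMF

/-- the components of a vanishing cross product -/
theorem cr_zero {u v : V} (h : cr u v = 0) :
    u 1 * v 2 = u 2 * v 1 ∧ u 2 * v 0 = u 0 * v 2 ∧ u 0 * v 1 = u 1 * v 0 := by
  have h0 := congrFun h 0
  have h1 := congrFun h 1
  have h2 := congrFun h 2
  simp only [cr, Matrix.cons_val_zero, Matrix.cons_val_one, Matrix.cons_val, Pi.zero_apply]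
    at h0 h1 h2
  exact ⟨by linarith, by linarith, by linarith⟩

theorem ne_zero_comp {q : V} (hq : q ≠ 0) : ∃ k, q k ≠ 0 := by
  by_contra hcon
  push Not at hcon
  exact hq (funext hcon)

/-- parallel to a common nonzero vector -/
theorem cr_trans {u v q : V} (hq : q ≠ 0) (h1 : cr u q = 0) (h2 : cr v q = 0) : cr u v = 0 := by
  obtain ⟨a1, a2, a3⟩ := cr_zero h1
  obtain ⟨b1, b2, b3⟩ := cr_zero h2
  obtain ⟨k, hk⟩ := ne_zero_comp hq
  have e0 : u 1 * v 2 - u 2 * v 1 = 0 := by
    have h0 : q k * (u 1 * v 2 - u 2 * v 1) = 0 := by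
      fin_cases k
      · change q 0 * (u 1 * v 2 - u 2 * v 1) = 0
        linear_combination (-v 2) * a3 - v 1 * a2 - u 0 * b1
      · change q 1 * (u 1 * v 2 - u 2 * v 1) = 0
        linear_combination v 1 * a1 - u 1 * b1
      · change q 2 * (u 1 * v 2 - u 2 * v 1) = 0
        linear_combination v 2 * a1 - u 2 * b1
    exact (mul_eq_zero.1 h0).resolve_left hk
  have e1 : u 2 * v 0 - u 0 * v 2 = 0 := by
    have h0 : q k * (u 2 * v 0 - u 0 * v 2) = 0 := by
      fin_cases k
      · change q 0 * (u 2 * v 0 - u 0 * v 2) = 0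
        linear_combination v 0 * a2 - u 0 * b2
      · change q 1 * (u 2 * v 0 - u 0 * v 2) = 0
        linear_combination (-v 0) * a1 - v 2 * a3 - u 1 * b2
      · change q 2 * (u 2 * v 0 - u 0 * v 2) = 0
        linear_combination v 2 * a2 - u 2 * b2
    exact (mul_eq_zero.1 h0).resolve_left hk
  have e2 : u 0 * v 1 - u 1 * v 0 = 0 := by
    have h0 : q k * (u 0 * v 1 - u 1 * v 0) = 0 := by
      fin_cases k
      · change q 0 * (u 0 * v 1 - u 1 * v 0) = 0
        linear_combination v 0 * a3 - u 0 * b3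
      · change q 1 * (u 0 * v 1 - u 1 * v 0) = 0
        linear_combination v 1 * a3 - u 1 * b3
      · change q 2 * (u 0 * v 1 - u 1 * v 0) = 0
        linear_combination (-v 1) * a2 - v 0 * a1 - u 2 * b3
    exact (mul_eq_zero.1 h0).resolve_left hk
  ext k
  fin_cases k
  · exact e0
  · exact e1
  · exact e2

theorem quad_comb (e : Fin 6 → ℝ) (x v : V) (s t : ℝ) :
    quad e (s • x + t • v) = s ^ 2 * quad e x + s * t * ip (tg e x) v + t ^ 2 * quad e v := by
  simp only [quad, ip, tg, Pi.add_apply, Pi.smul_apply, smul_eq_mul, Matrix.cons_val_zero,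
    Matrix.cons_val_one, Matrix.cons_val]
  ring

theorem ip_tg_comm (e : Fin 6 → ℝ) (x v : V) : ip (tg e x) v = ip (tg e v) x := by
  simp only [ip, tg, Matrix.cons_val_zero, Matrix.cons_val_one, Matrix.cons_val]
  ring

theorem ip_tg_self (e : Fin 6 → ℝ) (x : V) : ip (tg e x) x = 2 * quad e x := by
  simp only [quad, ip, tg, Matrix.cons_val_zero, Matrix.cons_val_one, Matrix.cons_val]
  ring

theorem ip_zero (v : V) : ip 0 v = 0 := by
  simp [ip]

/-- TN3. -/
theorem tn3 (_bas : BasStmt) (lnq : LnqStmt) : Tn3Stmt := by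
  refine ⟨?_, ?_⟩
  · intro e x q he hx hxx hq
    by_contra hq0
    have hq' : ∀ i, ip (tg e q) (x i) = 0 := fun i => by rw [← ip_tg_comm]; exact hq i
    by_cases ht : tg e q = 0
    · -- some `x i` is not parallel to `q`
      have hi : ∃ i, cr (x i) q ≠ 0 := by
        by_contra hcon
        push Not at hcon
        exact hxx 0 1 (by decide) (cr_trans hq0 (hcon 0) (hcon 1))
      obtain ⟨i, hi⟩ := hi
      obtain ⟨s, t, hst⟩ := he (x i) q hi
      apply hst
      have h1 : quad e q = 0 := by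
        have := ip_tg_self e q
        rw [ht, ip_zero] at this
        linarith
      rw [quad_comb, hx i, hq i, h1]
      ring
    · exact lnq.1 e (tg e q) (x 0) (x 1) (x 2) he ht (hq' 0) (hq' 1) (hq' 2) (hx 0) (hx 1) (hx 2)
        (hxx 0 1 (by decide)) (hxx 1 2 (by decide)) (hxx 2 0 (by decide))
  · intro e x g g' he hx hg hxg hgg hcr
    obtain ⟨s, t, hst⟩ := he x g hxg
    apply hst
    have hip : ip (tg e x) g = 0 := by
      obtain ⟨a1, a2, a3⟩ := cr_zero hcr
      obtain ⟨k, hk⟩ := ne_zero_comp hgg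
      have hw : cr g g' 0 * g 0 + cr g g' 1 * g 1 + cr g g' 2 * g 2 = 0 := by
        simp only [cr, Matrix.cons_val_zero, Matrix.cons_val_one, Matrix.cons_val]
        ring
      generalize cr g g' = w at a1 a2 a3 hk hw
      generalize tg e x = τ at a1 a2 a3
      have h0 : w k * ip τ g = 0 := by
        unfold ip
        fin_cases k
        · change w 0 * (τ 0 * g 0 + τ 1 * g 1 + τ 2 * g 2) = 0
          linear_combination (-g 1) * a3 + g 2 * a2 + τ 0 * hw
        · change w 1 * (τ 0 * g 0 + τ 1 * g 1 + τ 2 * g 2) = 0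
          linear_combination g 0 * a3 - g 2 * a1 + τ 1 * hw
        · change w 2 * (τ 0 * g 0 + τ 1 * g 1 + τ 2 * g 2) = 0
          linear_combination (-g 0) * a2 + g 1 * a1 + τ 2 * hw
      exact (mul_eq_zero.1 h0).resolve_left hk
    rw [quad_comb, hx, hg, hip]
    ring

end Pool.Agent.OMF.H69
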